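import Pool.Agent.Helper97.Ku.GoalsG

/-! Packet TRANS of MP_47bc22_lc: the transfer theorem. -/

set_option autoImplicit false

namespace Pool.Agent.Helper97.Ku.PkTrans

universe u v w

open BSet

section names

variable {Ω : Type u} [LinearOrder Ω] {L : Type u} [CompleteBooleanAlgebra L]

/-- The name of the constant function zero. -/
def zf (G : Grd Ω) : FN Ω L where
  v _ j := bo (j = G.c0)
  tot i := by
    rw [eq_top_iff]
    exact le_trans (by rw [bo_true rfl]) (le_iSup (fun j => (bo (j = G.c0) : L)) G.c0)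
  fn i j k h := by
    by_cases hj : j = G.c0
    · rw [bo_false (P := k = G.c0) (fun hk => h (hj.trans hk.symm)), inf_bot_eq]
    · rw [bo_false hj, bot_inf_eq]

theorem tricho (G : Grd Ω) (a b : WN Ω L) :
    (M1 G L).lt a b ⊔ (M1 G L).eq a b ⊔ (M1 G L).lt b a = ⊤ := by
  rw [eq_top_iff]
  have h1 : (⊤ : L) = (⨆ i, a.v i) ⊓ (⨆ j, b.v j) := by rw [a.tot, b.tot, inf_top_eq]
  rw [h1, iSup_inf_eq]
  refine iSup_le fun i => ?_
  rw [inf_iSup_eq]
  refine iSup_le fun j => ?_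
  rcases lt_trichotomy i j with h | h | h
  · refine le_trans ?_ (le_sup_of_le_left le_sup_left)
    refine le_trans ?_ (le_iSup_of_le i (le_iSup_of_le j le_rfl))
    rw [bo_true h, inf_top_eq]
  · subst h
    refine le_trans ?_ (le_sup_of_le_left le_sup_right)
    exact le_iSup (fun i => a.v i ⊓ b.v i) i
  · refine le_trans ?_ le_sup_right
    refine le_trans ?_ (le_iSup_of_le j (le_iSup_of_le i le_rfl))
    rw [bo_true h, inf_top_eq, inf_comm]

theorem not_lt_c0 (G : Grd Ω) (a : WN Ω L) : (M1 G L).lt a (WN.chk G.c0) = ⊥ := by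
  rw [eq_bot_iff]
  refine iSup_le fun i => iSup_le fun j => ?_
  change a.v i ⊓ bo (j = G.c0) ⊓ bo (i < j) ≤ ⊥
  by_cases hj : j = G.c0
  · rw [hj, bo_false (not_lt.2 (G.c0_le i)), inf_bot_eq]
  · rw [bo_false hj, inf_bot_eq, bot_inf_eq]

theorem lt_c1_eq (G : Grd Ω) (a : WN Ω L) :
    (M1 G L).lt a (WN.chk G.c1) = (M1 G L).eq a (WN.chk G.c0) := by
  apply le_antisymm
  · refine iSup_le fun i => iSup_le fun j => ?_
    change a.v i ⊓ bo (j = G.c1) ⊓ bo (i < j) ≤ ⨆ i, a.v i ⊓ bo (i = G.c0)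
    by_cases hj : j = G.c1
    · by_cases hi : i < j
      · rw [hj, G.lt_c1] at hi
        refine le_trans ?_ (le_iSup _ i)
        rw [bo_true hi, inf_top_eq]
        exact inf_le_left.trans inf_le_left
      · rw [bo_false hi, inf_bot_eq]; exact bot_le
    · rw [bo_false hj, inf_bot_eq, bot_inf_eq]; exact bot_le
  · refine iSup_le fun i => ?_
    change a.v i ⊓ bo (i = G.c0) ≤ ⨆ i, ⨆ j, a.v i ⊓ bo (j = G.c1) ⊓ bo (i < j)
    refine le_trans ?_ (le_iSup_of_le i (le_iSup _ G.c1))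
    rw [bo_true (P := G.c1 = G.c1) rfl, inf_top_eq]
    have h : (i < G.c1) = (i = G.c0) := propext (G.lt_c1 i)
    rw [h]

/-- first component of a name -/
def fstN (G : Grd Ω) (c : WN Ω L) : WN Ω L where
  v i := ⨆ j, c.v (G.pi (i, j))
  tot := by
    rw [eq_top_iff, ← c.tot]
    refine iSup_le fun k => ?_
    refine le_trans ?_ (le_iSup_of_le (G.pi.symm k).1 (le_iSup _ (G.pi.symm k).2))
    rw [Prod.mk.eta, Equiv.apply_symm_apply]
  dj i j h := by
    rw [eq_bot_iff, iSup_inf_eq]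
    refine iSup_le fun k => ?_
    rw [inf_iSup_eq]
    refine iSup_le fun l => ?_
    rw [c.dj _ _ (fun h2 => h (congrArg Prod.fst (G.pi.injective h2)))]

/-- second component of a name -/
def sndN (G : Grd Ω) (c : WN Ω L) : WN Ω L where
  v j := ⨆ i, c.v (G.pi (i, j))
  tot := by
    rw [eq_top_iff, ← c.tot]
    refine iSup_le fun k => ?_
    refine le_trans ?_ (le_iSup_of_le (G.pi.symm k).2 (le_iSup _ (G.pi.symm k).1))
    rw [Prod.mk.eta, Equiv.apply_symm_apply]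
  dj i j h := by
    rw [eq_bot_iff, iSup_inf_eq]
    refine iSup_le fun k => ?_
    rw [inf_iSup_eq]
    refine iSup_le fun l => ?_
    rw [c.dj _ _ (fun h2 => h (congrArg Prod.snd (G.pi.injective h2)))]

theorem pr_fst_snd (G : Grd Ω) (c : WN Ω L) :
    (M1 G L).eq ((M1 G L).pr (fstN G c) (sndN G c)) c = ⊤ := by
  rw [eq_top_iff, ← c.tot]
  refine iSup_le fun k => ?_
  refine le_trans ?_ (le_iSup _ k)
  refine le_inf (le_inf ?_ ?_) le_rfl
  · change c.v k ≤ ⨆ j, c.v (G.pi ((G.pi.symm k).1, j))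
    refine le_trans ?_ (le_iSup _ (G.pi.symm k).2)
    rw [Prod.mk.eta, Equiv.apply_symm_apply]
  · change c.v k ≤ ⨆ i, c.v (G.pi (i, (G.pi.symm k).2))
    refine le_trans ?_ (le_iSup _ (G.pi.symm k).1)
    rw [Prod.mk.eta, Equiv.apply_symm_apply]

theorem pr_inj_left (G : Grd Ω) (a b a' b' : WN Ω L) :
    (M1 G L).eq ((M1 G L).pr a b) ((M1 G L).pr a' b') ≤ (M1 G L).eq a a' := by
  refine iSup_le fun k => ?_
  change (a.v (G.pi.symm k).1 ⊓ b.v (G.pi.symm k).2) ⊓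
    (a'.v (G.pi.symm k).1 ⊓ b'.v (G.pi.symm k).2) ≤ ⨆ i, (a.v i ⊓ a'.v i)
  refine le_trans ?_ (le_iSup _ (G.pi.symm k).1)
  exact le_inf (inf_le_left.trans inf_le_left) (inf_le_right.trans inf_le_left)

theorem pr_inj_right (G : Grd Ω) (a b a' b' : WN Ω L) :
    (M1 G L).eq ((M1 G L).pr a b) ((M1 G L).pr a' b') ≤ (M1 G L).eq b b' := by
  refine iSup_le fun k => ?_
  change (a.v (G.pi.symm k).1 ⊓ b.v (G.pi.symm k).2) ⊓
    (a'.v (G.pi.symm k).1 ⊓ b'.v (G.pi.symm k).2) ≤ ⨆ i, (b.v i ⊓ b'.v i)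
  refine le_trans ?_ (le_iSup _ (G.pi.symm k).2)
  exact le_inf (inf_le_left.trans inf_le_right) (inf_le_right.trans inf_le_right)

end names

section rz

variable {Ω : Type u} [LinearOrder Ω] {L : Type u} [CompleteBooleanAlgebra L] {G : Grd Ω}
  {U : UF L} (r : Rz G U)

theorem tri (x y : El NM.E r.w) : NM.E x.1 y.1 ∨ x = y ∨ NM.E y.1 x.1 := by
  obtain ⟨a, rfl⟩ := r.cW_surj x
  obtain ⟨b, rfl⟩ := r.cW_surj y
  have h : U.mem ((M1 G L).lt a b ⊔ (M1 G L).eq a b ⊔ (M1 G L).lt b a) := by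
    rw [tricho]; exact U.top
  rw [U.sup_iff, U.sup_iff, ← r.cW_lt, ← r.cW_lt, ← r.cW_eq] at h
  tauto

theorem not_E_c0 (x : El NM.E r.w) : ¬ NM.E x.1 (r.cW (WN.chk G.c0)).1 := by
  obtain ⟨a, rfl⟩ := r.cW_surj x
  rw [r.cW_lt, not_lt_c0]
  exact U.not_bot

theorem isZero_iff (i : El NM.E r.w) :
    IsZero (fun s t : El NM.E r.w => NM.E s.1 t.1) i ↔ i = r.cW (WN.chk G.c0) := by
  constructor
  · intro h
    rcases tri r i (r.cW (WN.chk G.c0)) with h1 | h1 | h1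
    · exact absurd h1 (not_E_c0 r i)
    · exact h1
    · exact absurd h1 (h _)
  · rintro rfl t
    exact not_E_c0 r t

theorem E_c1_iff (x : El NM.E r.w) :
    NM.E x.1 (r.cW (WN.chk G.c1)).1 ↔ x = r.cW (WN.chk G.c0) := by
  obtain ⟨a, rfl⟩ := r.cW_surj x
  rw [r.cW_lt, lt_c1_eq, r.cW_eq]

theorem isOne_iff (i : El NM.E r.w) :
    IsOne (fun s t : El NM.E r.w => NM.E s.1 t.1) i ↔ i = r.cW (WN.chk G.c1) := by
  constructor
  · intro h
    have h0 : NM.E (r.cW (WN.chk G.c0)).1 i.1 := (h _).2 ((isZero_iff r _).2 rfl)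
    rcases tri r i (r.cW (WN.chk G.c1)) with h1 | h1 | h1
    · rw [E_c1_iff] at h1
      rw [h1] at h0
      exact absurd h0 (not_E_c0 r _)
    · exact h1
    · have h2 := (h _).1 h1
      rw [isZero_iff] at h2
      have h3 := (E_c1_iff r (r.cW (WN.chk G.c0))).2 rfl
      rw [h2] at h3
      exact absurd h3 (not_E_c0 r _)
  · rintro rfl t
    exact (E_c1_iff r t).trans (isZero_iff r t).symm

theorem bij : Function.Bijective (fun z : El NM.E r.w × El NM.E r.w => r.p z.1 z.2) := by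
  constructor
  · rintro ⟨x, y⟩ ⟨x', y'⟩ h
    obtain ⟨a, rfl⟩ := r.cW_surj x
    obtain ⟨b, rfl⟩ := r.cW_surj y
    obtain ⟨a', rfl⟩ := r.cW_surj x'
    obtain ⟨b', rfl⟩ := r.cW_surj y'
    simp only [r.p_cW, r.cW_eq] at h
    rw [Prod.mk.injEq]
    exact ⟨(r.cW_eq _ _).2 (U.mono (pr_inj_left G a b a' b') h),
      (r.cW_eq _ _).2 (U.mono (pr_inj_right G a b a' b') h)⟩
  · intro x
    obtain ⟨c, rfl⟩ := r.cW_surj x
    refine ⟨(r.cW (fstN G c), r.cW (sndN G c)), ?_⟩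
    change r.p _ _ = _
    rw [r.p_cW, r.cW_eq, pr_fst_snd]
    exact U.top

end rz

section vals

variable {W : Type v} {F : Type w} (M : BStr W F Prop) (i : ℕ → W) (e : ℕ → F)

theorem val_neg (a : SO) : (SO.neg a).val M i e ↔ ¬ a.val M i e := by
  simp [SO.val]

theorem val_and (a b : SO) : (SO.and a b).val M i e ↔ (a.val M i e ∧ b.val M i e) := by
  simp [SO.val]

theorem val_all (k : ℕ) (a : SO) :
    (SO.all k a).val M i e ↔ ∀ x, a.val M (Function.update i k x) e := by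
  simp [SO.val]

theorem val_allF (k : ℕ) (a : SO) :
    (SO.allF k a).val M i e ↔ ∀ x, a.val M i (Function.update e k x) := by
  simp [SO.val]

theorem val_ex (k : ℕ) (a : SO) :
    (SO.ex k a).val M i e ↔ ∃ x, a.val M (Function.update i k x) e := by
  simp [SO.ex, SO.val]

theorem val_exF (k : ℕ) (a : SO) :
    (SO.exF k a).val M i e ↔ ∃ x, a.val M i (Function.update e k x) := by
  simp [SO.exF, SO.val]

theorem val_imp (a b : SO) : (SO.imp a b).val M i e ↔ (a.val M i e → b.val M i e) := by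
  simp [SO.imp, SO.val]

theorem val_or (a b : SO) : (SO.or a b).val M i e ↔ (a.val M i e ∨ b.val M i e) := by
  simp only [SO.or, val_neg, val_and]
  tauto

end vals

theorem trans : G_UFEX.{u} → G_ZFC.{u} → G_RZ.{u} → G_LOS2.{u} → G_SIG.{u} → G_KURP.{u+1} →
    G_WNA.{u} → G_TRANS.{u} := by
  intro hU hZ hRZ hLos hSig hKur hWna Ω _ _ L _ G hL H
  obtain ⟨U, hU⟩ := hU L ⊤ hL
  obtain ⟨r⟩ := hRZ Ω L G U
  refine ⟨NM U, NM.E, hZ L U, ?_⟩
  -- truth transfer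
  set i0 : ℕ → Ω := fun _ => G.c0 with hi0
  set e0 : ℕ → FN Ω L := fun _ => zf G with he0
  have los : ∀ (φ : SO) (e : ℕ → FN Ω L),
      φ.val r.MN (fun k => r.cW (WN.chk (i0 k))) (fun k => ⟨r.cF (e k), r.cF_rep (e k)⟩) ↔
        U.mem (φ.val (M0 G L) i0 e) := by
    intro φ e
    rw [← (hWna Ω L G).2.2 φ i0 e]
    exact hLos Ω L G U r φ (fun k => WN.chk (i0 k)) e
  have tr : ∀ φ : SO, (∀ i e, φ.val (M0 G L) i e = ⊤) →
      φ.val r.MN (fun k => r.cW (WN.chk (i0 k))) (fun k => ⟨r.cF (e0 k), r.cF_rep (e0 k)⟩) := by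
    intro φ h
    rw [los, h]
    exact U.top
  have kur : ∀ (i : ℕ → El NM.E r.w) (e : ℕ → {f : El NM.E r.w → El NM.E r.w //
      Rep NM.E r.w r.w f}), SO.kur.val r.MN i e ↔
        IsKur (fun s t : El NM.E r.w => NM.E s.1 t.1) (fun n => NM.E n.1 r.o) r.p
          (Rep NM.E r.w r.w) (e 0).1 := by
    intro i e
    exact hKur (El NM.E r.w) (fun s t => NM.E s.1 t.1) (fun n => NM.E n.1 r.o) r.p
      (Rep NM.E r.w r.w) (r.cW (WN.chk G.c0)) (r.cW (WN.chk G.c1)) (isZero_iff r) (isOne_iff r) i e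
  have kur0 : ∀ x : FN Ω L, IsKur (fun s t : El NM.E r.w => NM.E s.1 t.1)
      (fun n => NM.E n.1 r.o) r.p (Rep NM.E r.w r.w) (r.cF x) ↔
        U.mem (SO.kur.val (M0 G L) i0 (Function.update e0 0 x)) := by
    intro x
    rw [← los, kur]
    simp
  refine ⟨r.o, r.w, r.omega, ⟨r.ord, ?_, ?_⟩, r.p, r.p_rep, bij r, ?_, ?_, ?_, ?_⟩
  · intro x hx
    have h := tr SO.cnt H.cnt
    simp only [SO.cnt, val_all, val_exF, val_imp, val_and] at h
    obtain ⟨f, hf⟩ := h ⟨x, hx⟩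
    refine r.cble ⟨x, hx⟩ f.1 f.2 ?_ ?_
    · intro y hy
      have h1 := hf y y (f.1 y) (f.1 y)
      simp [SO.val, Tm.ev, Rz.MN, hy] at h1
      exact h1
    · intro y z hy hz hyz
      have h1 := hf y z (f.1 y) (f.1 z)
      simp [SO.val, Tm.ev, Rz.MN, hy, hz] at h1
      exact h1.2 hyz
  · intro hc
    obtain ⟨f, hf, hf1, hf2⟩ := r.cble' hc
    have h := tr SO.unc H.unc
    simp only [SO.unc, val_allF, val_ex, val_or, val_and, val_neg] at h
    obtain ⟨x, y, x', y', h1⟩ := h ⟨f, hf⟩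
    simp [SO.val, Tm.ev, Rz.MN] at h1
    obtain ⟨⟨h2, h3⟩, h4⟩ := h1
    subst h2 h3
    rcases h4 with h5 | h5
    · exact h5 (hf1 x)
    · exact h5.1 (hf2 h5.2)
  · have h := tr SO.ch H.ch
    simp only [SO.ch, val_allF, val_ex, val_exF, val_all, val_imp, val_and] at h
    obtain ⟨c, hc⟩ := h
    refine ⟨c.1, c.2, fun a ha => ?_⟩
    obtain ⟨f, hf⟩ := r.sub a
    obtain ⟨ν, hν⟩ := hc ⟨r.cF f, r.cF_rep f⟩
    refine ⟨ν, fun n hn => ?_⟩
    have h1 := hν n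
    have h2 : NM.E n.1 a ↔ r.cF f n = r.cW (WN.chk G.c0) := by
      obtain ⟨m, rfl⟩ := r.cW_surj n
      rw [hf, ← r.cF_ap]
      rfl
    rw [h2, isZero_iff]
    simp [SO.val, Tm.ev, Rz.MN, hn] at h1
    exact ⟨h1.1, h1.2⟩
  · have h := tr (SO.exF 0 SO.kur) H.ne
    rw [val_exF] at h
    obtain ⟨x, hx⟩ := h
    refine ⟨x.1, x.2, ?_⟩
    have h1 := (kur _ _).1 hx
    rwa [Function.update_self] at h1
  · exact hSig Ω L G U r _ (H.sig i0 e0) _ kur0
  · refine hSig Ω L G U r _ (H.sig' i0 e0) _ (fun x => ?_)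
    rw [kur0 x, U.compl]

end Pool.Agent.Helper97.Ku.PkTrans
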